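import Mathlib
import Pool.Agent.helper64.OT.SpecF

/-!
# Project OT (MP_f6e9a2_nt), row COA: core (a), intervals of at most `p^(3/4-ε)` terms

The set `B` is split into its part `L` in the sparse cells and its part `H` in the dense cells; `L` is
handled by the fourth moment (P3, ENL), `H` by the cell bound (COB).
-/

set_option autoImplicit false

namespace Pool.Agent.OT

open Finset

lemma COA_card_le {p : ℕ} [Fact p.Prime] (N : ℕ) (X : Finset (ZMod p)) (h : ∀ x ∈ X, x.val < N) :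
    X.card ≤ N := by
  have h1 : (X.image ZMod.val).card = X.card :=
    Finset.card_image_of_injective _ (ZMod.val_injective p)
  have h2 : X.image ZMod.val ⊆ range N := by
    intro n hn
    obtain ⟨x, hx, rfl⟩ := Finset.mem_image.1 hn
    exact Finset.mem_range.2 (h x hx)
  have h3 := Finset.card_le_card h2
  rw [h1, Finset.card_range] at h3
  exact h3

lemma COA_high {p : ℕ} (N m : ℕ) (B : Finset (ZMod p)) :
    (cells N (B.filter fun b => ¬ (cell N B (b.val / N)).card ≤ m)).card * (m + 1) ≤ B.card := by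
  set H := B.filter fun b => ¬ (cell N B (b.val / N)).card ≤ m with hH
  have h1 : ∀ j ∈ cells N H, m + 1 ≤ (H.filter fun b => b.val / N = j).card := by
    intro j hj
    obtain ⟨b, hb, hbj⟩ := Finset.mem_image.1 hj
    have hb' := (Finset.mem_filter.1 hb).2
    rw [hbj] at hb'
    have h2 : cell N B j ⊆ H.filter fun b => b.val / N = j := by
      intro y hy
      have hy' := Finset.mem_filter.1 hy
      refine Finset.mem_filter.2 ⟨Finset.mem_filter.2 ⟨hy'.1, ?_⟩, hy'.2⟩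
      rw [hy'.2]
      exact hb'
    exact le_trans (by omega) (Finset.card_le_card h2)
  have h3 : ∑ j ∈ cells N H, (H.filter fun b => b.val / N = j).card = H.card :=
    (Finset.card_eq_sum_card_image (fun b : ZMod p => b.val / N) H).symm
  calc (cells N H).card * (m + 1) = ∑ _j ∈ cells N H, (m + 1) := by
        rw [Finset.sum_const, smul_eq_mul]
    _ ≤ ∑ j ∈ cells N H, (H.filter fun b => b.val / N = j).card := Finset.sum_le_sum h1
    _ = H.card := h3
    _ ≤ B.card := Finset.card_le_card (Finset.filter_subset _ _)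

lemma COA_low {p : ℕ} (N m : ℕ) (B : Finset (ZMod p)) :
    ∀ j ∈ cells N (B.filter fun b => (cell N B (b.val / N)).card ≤ m),
      (cell N (B.filter fun b => (cell N B (b.val / N)).card ≤ m) j).card ≤ m := by
  intro j hj
  obtain ⟨b, hb, hbj⟩ := Finset.mem_image.1 hj
  have hb' := (Finset.mem_filter.1 hb).2
  rw [hbj] at hb'
  refine le_trans (Finset.card_le_card ?_) hb'
  exact Finset.filter_subset_filter _ (Finset.filter_subset _ _)

lemma COA_num (P e N L E : ℝ) (hP : 1 ≤ P) (he : 0 < e) (hN0 : 0 ≤ N)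
    (hN : N ≤ P ^ (3 / 4 - e)) (hL : P ^ (1 / 2 - e / 20 / 8) ≤ L) (hE0 : 0 ≤ E)
    (hE : E ≤ 4 * P ^ (1 / 4 - e / 4) * L ^ 2) :
    100 * (N * L + L * (E * (N * P ^ 2 + P ^ (11 / 4 : ℝ))) ^ (1 / 4 : ℝ)) ≤
      10 ^ 6 * P ^ (1 / 2 - e / 20) * L ^ 2 := by
  have hP0 : 0 < P := by linarith
  have hl0 : 0 < P ^ (1 / 2 - e / 20 / 8) := Real.rpow_pos_of_pos hP0 _
  have hL0 : 0 < L := lt_of_lt_of_le hl0 hL
  have ha0 : 0 < P ^ (1 / 2 - e / 20) := Real.rpow_pos_of_pos hP0 _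
  have h1 : N ≤ P ^ (1 / 2 - e / 20) * L := by
    calc N ≤ P ^ (3 / 4 - e) := hN
      _ ≤ P ^ ((1 / 2 - e / 20) + (1 / 2 - e / 20 / 8)) :=
          Real.rpow_le_rpow_of_exponent_le hP (by linarith)
      _ = P ^ (1 / 2 - e / 20) * P ^ (1 / 2 - e / 20 / 8) := Real.rpow_add hP0 _ _
      _ ≤ P ^ (1 / 2 - e / 20) * L := mul_le_mul_of_nonneg_left hL ha0.le
  have h2 : N * P ^ 2 + P ^ (11 / 4 : ℝ) ≤ 2 * P ^ (11 / 4 : ℝ) := by
    have h3 : N * P ^ 2 ≤ P ^ (11 / 4 : ℝ) := by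
      calc N * P ^ 2 ≤ P ^ (3 / 4 - e) * P ^ 2 := mul_le_mul_of_nonneg_right hN (by positivity)
        _ = P ^ (3 / 4 - e + 2) := by
            rw [Real.rpow_add hP0, Real.rpow_two]
        _ ≤ P ^ (11 / 4 : ℝ) := Real.rpow_le_rpow_of_exponent_le hP (by linarith)
    linarith
  have hLsq : P ^ (1 - e / 80) ≤ L ^ 2 := by
    calc P ^ (1 - e / 80) = P ^ ((1 / 2 - e / 20 / 8) + (1 / 2 - e / 20 / 8)) := by
          congr 1; ring
      _ = P ^ (1 / 2 - e / 20 / 8) * P ^ (1 / 2 - e / 20 / 8) := Real.rpow_add hP0 _ _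
      _ ≤ L * L := mul_le_mul hL hL hl0.le hL0.le
      _ = L ^ 2 := by ring
  have h4 : (P ^ (1 / 2 - e / 20)) ^ 4 = P ^ (2 - e / 5) := by
    rw [← Real.rpow_natCast, ← Real.rpow_mul hP0.le]
    congr 1
    push_cast
    ring
  have h5 : E * (N * P ^ 2 + P ^ (11 / 4 : ℝ)) ≤ (2 * P ^ (1 / 2 - e / 20) * L) ^ 4 := by
    calc E * (N * P ^ 2 + P ^ (11 / 4 : ℝ))
        ≤ (4 * P ^ (1 / 4 - e / 4) * L ^ 2) * (2 * P ^ (11 / 4 : ℝ)) :=
          mul_le_mul hE h2 (by positivity) (by positivity)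
      _ = 8 * (P ^ (1 / 4 - e / 4) * P ^ (11 / 4 : ℝ)) * L ^ 2 := by ring
      _ = 8 * P ^ (3 - e / 4) * L ^ 2 := by
          rw [← Real.rpow_add hP0]
          congr 3
          ring
      _ ≤ 16 * P ^ ((2 - e / 5) + (1 - e / 80)) * L ^ 2 := by
          have h6 : P ^ (3 - e / 4) ≤ P ^ ((2 - e / 5) + (1 - e / 80)) :=
            Real.rpow_le_rpow_of_exponent_le hP (by linarith)
          have h7 : 0 < P ^ (3 - e / 4) := Real.rpow_pos_of_pos hP0 _
          exact mul_le_mul_of_nonneg_right (by linarith) (by positivity)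
      _ = 16 * P ^ (2 - e / 5) * P ^ (1 - e / 80) * L ^ 2 := by
          rw [Real.rpow_add hP0]; ring
      _ ≤ 16 * P ^ (2 - e / 5) * L ^ 2 * L ^ 2 := by
          have h8 : 0 < P ^ (2 - e / 5) := Real.rpow_pos_of_pos hP0 _
          exact mul_le_mul_of_nonneg_right (mul_le_mul_of_nonneg_left hLsq (by positivity))
            (by positivity)
      _ = (2 * P ^ (1 / 2 - e / 20) * L) ^ 4 := by
          rw [mul_pow, mul_pow, h4]; ring
  have h9 : (E * (N * P ^ 2 + P ^ (11 / 4 : ℝ))) ^ (1 / 4 : ℝ) ≤ 2 * P ^ (1 / 2 - e / 20) * L := by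
    have h10 : 0 ≤ 2 * P ^ (1 / 2 - e / 20) * L := by positivity
    calc (E * (N * P ^ 2 + P ^ (11 / 4 : ℝ))) ^ (1 / 4 : ℝ)
        ≤ ((2 * P ^ (1 / 2 - e / 20) * L) ^ 4) ^ (1 / 4 : ℝ) :=
          Real.rpow_le_rpow (by positivity) h5 (by norm_num)
      _ = 2 * P ^ (1 / 2 - e / 20) * L := by
          rw [← Real.rpow_natCast, ← Real.rpow_mul h10]
          norm_num
  have h11 : N * L ≤ P ^ (1 / 2 - e / 20) * L ^ 2 := by
    calc N * L ≤ (P ^ (1 / 2 - e / 20) * L) * L := mul_le_mul_of_nonneg_right h1 hL0.le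
      _ = _ := by ring
  have h12 : L * (E * (N * P ^ 2 + P ^ (11 / 4 : ℝ))) ^ (1 / 4 : ℝ) ≤
      2 * (P ^ (1 / 2 - e / 20) * L ^ 2) := by
    calc L * (E * (N * P ^ 2 + P ^ (11 / 4 : ℝ))) ^ (1 / 4 : ℝ)
        ≤ L * (2 * P ^ (1 / 2 - e / 20) * L) := mul_le_mul_of_nonneg_left h9 hL0.le
      _ = _ := by ring
  have h13 : 0 < P ^ (1 / 2 - e / 20) * L ^ 2 := by positivity
  nlinarith [h11, h12, h13]

theorem COA (hSIZ : SIZ_stmt) (hMED : MED_stmt) (hP3 : P3_stmt) (hENL : ENL_stmt) (hCOB : COB_stmt) :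
    COA_stmt := by
  intro ε hε
  set e : ℝ := min ε (1 / 2) with hedef
  have he : 0 < e := lt_min hε (by norm_num)
  have heε : e ≤ ε := min_le_left _ _
  have he2 : e ≤ 1 / 2 := min_le_right _ _
  obtain ⟨cS, pS, hcS, HS⟩ := hSIZ e (e / 20 / 8) he (by positivity)
  obtain ⟨cM, pM, hcM, HM⟩ := hMED e (e / 20) he (by positivity)
  obtain ⟨cB, pB, hcB, HB⟩ := hCOB (e / 2) (by positivity)
  set c' : ℝ := min cM cB with hc'def
  have hc' : 0 < c' := lt_min hcM hcB
  have hc'M : c' ≤ cM := min_le_left _ _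
  have hc'B : c' ≤ cB := min_le_right _ _
  refine ⟨min cS (c' / 2), max (max pS pM) (max pB (max 65536 ⌈(2 : ℝ) ^ (2 / c')⌉₊)),
    lt_min hcS (by positivity), ?_⟩
  intro p _ hp χ N X B β hχ hβ hN0 hN hX hcase
  have hpS : pS < p := lt_of_le_of_lt (le_trans (le_max_left _ _) (le_max_left _ _)) hp
  have hpM : pM < p := lt_of_le_of_lt (le_trans (le_max_right _ _) (le_max_left _ _)) hp
  have hpB : pB < p := lt_of_le_of_lt (le_trans (le_max_left _ _) (le_max_right _ _)) hp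
  have hp1 : 65536 < p := lt_of_le_of_lt
    (le_trans (le_trans (le_max_left _ _) (le_max_right _ _)) (le_max_right _ _)) hp
  have hp2 : ⌈(2 : ℝ) ^ (2 / c')⌉₊ < p := lt_of_le_of_lt
    (le_trans (le_trans (le_max_right _ _) (le_max_right _ _)) (le_max_right _ _)) hp
  have hP1 : (65536 : ℝ) < (p : ℝ) := by exact_mod_cast hp1
  have hPge : (1 : ℝ) ≤ (p : ℝ) := by linarith
  have hPpos : (0 : ℝ) < (p : ℝ) := by linarith
  have hP2 : (2 : ℝ) ^ (2 / c') < (p : ℝ) :=
    lt_of_le_of_lt (Nat.le_ceil _) (by exact_mod_cast hp2)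
  have h2 : (2 : ℝ) ≤ (p : ℝ) ^ (c' / 2) := by
    calc (2 : ℝ) = ((2 : ℝ) ^ (2 / c')) ^ (c' / 2) := by
          rw [← Real.rpow_mul (by norm_num)]
          have : 2 / c' * (c' / 2) = 1 := by field_simp
          rw [this, Real.rpow_one]
      _ ≤ (p : ℝ) ^ (c' / 2) := Real.rpow_le_rpow (by positivity) hP2.le (by positivity)
  have hNe : (N : ℝ) ≤ (p : ℝ) ^ (3 / 4 - e) :=
    le_trans hN (Real.rpow_le_rpow_of_exponent_le hPge (by linarith))
  have hcase' : (B.card : ℝ) ≤ (p : ℝ) ^ (1 - e) ∨ (p : ℝ) ^ e ≤ X.card := by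
    rcases hcase with h | h
    · exact Or.inl (le_trans h (Real.rpow_le_rpow_of_exponent_le hPge (by linarith)))
    · exact Or.inr (le_trans (Real.rpow_le_rpow_of_exponent_le hPge heε) h)
  have hXN : (X.card : ℝ) ≤ N := by exact_mod_cast COA_card_le N X hX
  have hX1 : (X.card : ℝ) ≤ (p : ℝ) ^ (1 - e) :=
    le_trans hXN (le_trans hNe (Real.rpow_le_rpow_of_exponent_le hPge (by linarith)))
  have hR0 : ∀ D : Finset (ZMod p), 0 ≤ Real.sqrt (p * (X.card * D.card)) + (X.card : ℝ) * D.card :=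
    fun D => by positivity
  rcases HS p hpS χ X B hχ hX1 hcase' with hfirst | ⟨-, -, -, hB2⟩
  · refine le_trans (hfirst β hβ) (mul_le_mul_of_nonneg_right ?_ (hR0 B))
    exact Real.rpow_le_rpow_of_exponent_le hPge (neg_le_neg (min_le_left _ _))
  · set m : ℕ := ⌊(p : ℝ) ^ (1 / 4 - e / 4)⌋₊ with hm
    set L := B.filter fun b => (cell N B (b.val / N)).card ≤ m with hL
    set H := B.filter fun b => ¬ (cell N B (b.val / N)).card ≤ m with hH
    have hsplit : ∀ x, FB χ B β x = FB χ L β x + FB χ H β x := by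
      intro x
      unfold FB
      exact (Finset.sum_filter_add_sum_filter_not B _ _).symm
    have hLB : L.card ≤ B.card := Finset.card_le_card (Finset.filter_subset _ _)
    have hHB : H.card ≤ B.card := Finset.card_le_card (Finset.filter_subset _ _)
    have hLB' : (L.card : ℝ) ≤ B.card := by exact_mod_cast hLB
    have hHB' : (H.card : ℝ) ≤ B.card := by exact_mod_cast hHB
    have hmono : ∀ D : Finset (ZMod p), (D.card : ℝ) ≤ B.card →
        Real.sqrt (p * (X.card * D.card)) + (X.card : ℝ) * D.card ≤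
          Real.sqrt (p * (X.card * B.card)) + (X.card : ℝ) * B.card := by
      intro D hD
      have h3 : (X.card : ℝ) * D.card ≤ (X.card : ℝ) * B.card :=
        mul_le_mul_of_nonneg_left hD (Nat.cast_nonneg _)
      have h4 : Real.sqrt (p * (X.card * D.card)) ≤ Real.sqrt (p * (X.card * B.card)) :=
        Real.sqrt_le_sqrt (mul_le_mul_of_nonneg_left h3 hPpos.le)
      linarith
    -- the part in the dense cells
    have hHcells : (N : ℝ) * (cells N H).card ≤ (p : ℝ) ^ (1 - e / 2) := by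
      have h3 : (cells N H).card * (m + 1) ≤ B.card := COA_high N m B
      have h4 : ((cells N H).card : ℝ) * ((m : ℝ) + 1) ≤ B.card := by exact_mod_cast h3
      have h5 : (p : ℝ) ^ (1 / 4 - e / 4) ≤ (m : ℝ) + 1 := (Nat.lt_floor_add_one _).le
      have h6 : ((cells N H).card : ℝ) * (p : ℝ) ^ (1 / 4 - e / 4) ≤
          (p : ℝ) ^ (1 / 2 + e / 20 / 8) :=
        le_trans (le_trans (mul_le_mul_of_nonneg_left h5 (Nat.cast_nonneg _)) h4) hB2
      have h7 : ((cells N H).card : ℝ) ≤ (p : ℝ) ^ (1 / 4 + e / 4 + e / 20 / 8) := by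
        have h8 : (p : ℝ) ^ (1 / 2 + e / 20 / 8) =
            (p : ℝ) ^ (1 / 4 + e / 4 + e / 20 / 8) * (p : ℝ) ^ (1 / 4 - e / 4) := by
          rw [← Real.rpow_add hPpos]
          congr 1
          ring
        rw [h8] at h6
        exact le_of_mul_le_mul_right h6 (Real.rpow_pos_of_pos hPpos _)
      calc (N : ℝ) * (cells N H).card
          ≤ (p : ℝ) ^ (3 / 4 - e) * (p : ℝ) ^ (1 / 4 + e / 4 + e / 20 / 8) :=
            mul_le_mul hNe h7 (Nat.cast_nonneg _) (by positivity)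
        _ = (p : ℝ) ^ ((3 / 4 - e) + (1 / 4 + e / 4 + e / 20 / 8)) := (Real.rpow_add hPpos _ _).symm
        _ ≤ (p : ℝ) ^ (1 - e / 2) := Real.rpow_le_rpow_of_exponent_le hPge (by linarith)
    have hSH := HB p hpB χ N X H β hχ hβ hN0 hX hHcells
    -- the part in the sparse cells
    have hcaseL : (L.card : ℝ) ≤ (p : ℝ) ^ (1 - e) ∨ (p : ℝ) ^ e ≤ X.card := by
      rcases hcase' with h | h
      · exact Or.inl (le_trans hLB' h)
      · exact Or.inr h
    have hp14 : (16 : ℝ) ≤ (p : ℝ) ^ (1 / 4 : ℝ) := by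
      calc (16 : ℝ) = (65536 : ℝ) ^ (1 / 4 : ℝ) := by
            rw [show (65536 : ℝ) = 16 ^ (4 : ℝ) by norm_num, ← Real.rpow_mul (by norm_num)]
            norm_num
        _ ≤ (p : ℝ) ^ (1 / 4 : ℝ) := Real.rpow_le_rpow (by norm_num) hP1.le (by norm_num)
    have h16 : 16 * N ≤ p := by
      have h3 : (16 : ℝ) * N ≤ p := by
        calc (16 : ℝ) * N ≤ (p : ℝ) ^ (1 / 4 : ℝ) * (p : ℝ) ^ (3 / 4 - e) :=
              mul_le_mul hp14 hNe (Nat.cast_nonneg _) (by positivity)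
          _ = (p : ℝ) ^ (1 / 4 + (3 / 4 - e)) := (Real.rpow_add hPpos _ _).symm
          _ ≤ (p : ℝ) ^ (1 : ℝ) := Real.rpow_le_rpow_of_exponent_le hPge (by linarith)
          _ = p := Real.rpow_one _
      exact_mod_cast h3
    have hSL := HM p hpM χ N X L β hχ hβ hX hX1 hcaseL (by
      intro hL1 _
      refine le_trans (hP3 p χ N L β hχ (by omega) hN0 h16 hβ) ?_
      have hEN : EN N L ≤ 4 * m * L.card ^ 2 :=
        hENL p N m L hN0 (by omega) (COA_low N m B)
      have hEN' : (EN N L : ℝ) ≤ 4 * (p : ℝ) ^ (1 / 4 - e / 4) * (L.card : ℝ) ^ 2 := by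
        have h3 : (EN N L : ℝ) ≤ 4 * (m : ℝ) * (L.card : ℝ) ^ 2 := by exact_mod_cast hEN
        have h4 : (m : ℝ) ≤ (p : ℝ) ^ (1 / 4 - e / 4) := Nat.floor_le (by positivity)
        refine le_trans h3 (mul_le_mul_of_nonneg_right ?_ (by positivity))
        linarith
      exact COA_num (p : ℝ) e N L.card (EN N L) hPge he (Nat.cast_nonneg _) hNe hL1
        (Nat.cast_nonneg _) hEN')
    -- the sum
    have hsum : ∑ x ∈ X, ‖FB χ B β x‖ ≤ ∑ x ∈ X, ‖FB χ L β x‖ + ∑ x ∈ X, ‖FB χ H β x‖ := by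
      rw [← Finset.sum_add_distrib]
      refine Finset.sum_le_sum fun x _ => ?_
      rw [hsplit x]
      exact norm_add_le _ _
    have hbd : ∀ (c : ℝ) (D : Finset (ZMod p)), c' ≤ c → (D.card : ℝ) ≤ B.card →
        (p : ℝ) ^ (-c) * (Real.sqrt (p * (X.card * D.card)) + X.card * D.card) ≤
          (p : ℝ) ^ (-c') * (Real.sqrt (p * (X.card * B.card)) + X.card * B.card) := by
      intro c D hc hD
      exact mul_le_mul (Real.rpow_le_rpow_of_exponent_le hPge (neg_le_neg hc)) (hmono D hD)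
        (hR0 D) (by positivity)
    have h2c : 2 * (p : ℝ) ^ (-c') ≤ (p : ℝ) ^ (-min cS (c' / 2)) := by
      calc 2 * (p : ℝ) ^ (-c') ≤ (p : ℝ) ^ (c' / 2) * (p : ℝ) ^ (-c') :=
            mul_le_mul_of_nonneg_right h2 (by positivity)
        _ = (p : ℝ) ^ (c' / 2 + -c') := (Real.rpow_add hPpos _ _).symm
        _ ≤ (p : ℝ) ^ (-min cS (c' / 2)) := by
            refine Real.rpow_le_rpow_of_exponent_le hPge ?_
            have h3 : min cS (c' / 2) ≤ c' / 2 := min_le_right _ _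
            linarith
    calc ∑ x ∈ X, ‖FB χ B β x‖ ≤ ∑ x ∈ X, ‖FB χ L β x‖ + ∑ x ∈ X, ‖FB χ H β x‖ := hsum
      _ ≤ (p : ℝ) ^ (-c') * (Real.sqrt (p * (X.card * B.card)) + X.card * B.card) +
          (p : ℝ) ^ (-c') * (Real.sqrt (p * (X.card * B.card)) + X.card * B.card) :=
          add_le_add (le_trans hSL (hbd cM L hc'M hLB')) (le_trans hSH (hbd cB H hc'B hHB'))
      _ = (2 * (p : ℝ) ^ (-c')) * (Real.sqrt (p * (X.card * B.card)) + X.card * B.card) := by ring
      _ ≤ _ := mul_le_mul_of_nonneg_right h2c (hR0 B)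

end Pool.Agent.OT
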